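import Pool.Agent.U455.GBD
import Pool.Agent.U455.APC

/-!
# Primes `p` with all `dᵢ p + aᵢ` prime, in arbitrary dense sets of primes, uniformly in the modulus

Let `q ≥ 1`, let `r₀, ..., r_k` be coprime to `q` and `V = ∏ (1 - 1 / p)` over the primes `p ≤ X` not dividing `q`, so `X V`
is the expected order of the number of the `n` of an interval of length `X` with `n q + r_a` prime. Let
`Q₀, ..., Q_k` be ANY sets of at least `δ X V` integers `n` of intervals `(A_a, A_a + X]` with `n q + r_a > X` prime, and let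
`1 ≤ d_i ≤ D` be slopes.

A vector `b = (b₁, ..., b_k)` of integers is popular if at least `κ X Vᵏ⁺¹` of the `n ∈ Q₀` have `d_i n + b_i ∈ Q_i` for all
`i`. Then the primes `p = n q + r₀` of the first set have `d_i p + a_i` prime, in the set `Q_i`, for all `i`, where
`a_i = b_i q + r_i - d_i r₀`; the number `X Vᵏ⁺¹` is the conjectured order of magnitude of the number of these `p` for
the sets of all primes, up to the singular series.

For every `k ≥ 1`, `D` and `δ > 0` there are `h`, `M ≥ 1` and `κ, ρ > 0`, depending on `k`, `D` and `δ` ONLY, such that for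
all large `X`, ALL `q`, `r`, `A`, `Q` and `d`:

* at least `ρ Xᵏ` of the vectors `b` are popular;
* there is `C` such that EVERY `C + t`, `t ∈ (M ℕ)ᵏ`, `t_i ≤ X`, is a sum of exactly `h` popular vectors.

Proof: first moment; upper bound sieve with arbitrary classes (`Pool.Agent.U455.GBD.upN`); mean value of the collision
weights in intervals and second moment (`mean`, `mom`); the local form of Schnirelmann's theorem in fibres (`boxes`).
-/

set_option autoImplicit false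

namespace Pool.Agent.Results.MP_8bf9c2_nt.DenseSetsManyForms

open Finset

/-- the product of `1 - 1 / p` over the primes `p ≤ X` which do not divide `q` -/
noncomputable def V (q X : ℕ) : ℝ := ∏ p ∈ (Icc 1 X).filter (fun p => p.Prime ∧ ¬ p ∣ q), (1 - 1 / (p : ℝ))

open Classical in
/-- the number of the `n ∈ Q 0` with `d i * n + b i ∈ Q (i + 1)` for all `i` -/
noncomputable def sols {k : ℕ} (Q : Fin (k + 1) → Finset ℕ) (d : Fin k → ℕ) (b : Fin k → ℤ) : ℕ :=
  ((Q 0).filter (fun n : ℕ => ∀ i, ∃ m ∈ Q i.succ, (m : ℤ) = (d i : ℤ) * (n : ℤ) + b i)).card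

theorem result (k D : ℕ) (hk : 1 ≤ k) (δ : ℝ) (hδ : 0 < δ) :
    ∃ h M : ℕ, 1 ≤ M ∧ ∃ κ ρ : ℝ, 0 < κ ∧ 0 < ρ ∧ ∃ X₀ : ℕ, ∀ X : ℕ, X₀ ≤ X →
    ∀ (q : ℕ) (r A : Fin (k + 1) → ℕ) (Q : Fin (k + 1) → Finset ℕ), 1 ≤ q → (∀ a, Nat.Coprime q (r a)) →
      (∀ a, Q a ⊆ Ioc (A a) (A a + X)) → (∀ a, ∀ n ∈ Q a, (n * q + r a).Prime ∧ X < n * q + r a) →
      (∀ a, δ * (X * V q X) ≤ (Q a).card) → ∀ d : Fin k → ℕ, (∀ i, 1 ≤ d i ∧ d i ≤ D) →
      (∃ P : Finset (Fin k → ℤ), ρ * (X : ℝ) ^ k ≤ (P.card : ℝ) ∧ ∀ b ∈ P,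
        κ * (X * V q X ^ (k + 1)) ≤ (sols Q d b : ℝ)) ∧
      ∃ C : Fin k → ℤ, ∀ t : Fin k → ℕ, (∀ i, M ∣ t i) → (∀ i, t i ≤ X) →
        ∃ l : List (Fin k → ℤ), l.length = h ∧ l.sum = (fun i => C i + (t i : ℤ)) ∧ ∀ b ∈ l,
          κ * (X * V q X ^ (k + 1)) ≤ (sols Q d b : ℝ) := by
  obtain ⟨h, M, hM, c, ρ, hc, hρ, X₀, hmain⟩ := Pool.Agent.U455.GBD.main 1 k D hk 1 δ one_pos le_rfl hδ
  refine ⟨h, M, hM, c, ρ, hc, hρ, X₀, fun X hX q r A Q hq hqr hQ hQp hQc d hd => ?_⟩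
  have hV : ∀ a, Pool.Agent.Y843.HS.VV (Pool.Agent.U455.APC.cl q (r a)) 0 X = V q X :=
    fun a => (Pool.Agent.U455.APC.VV_eq (hqr a) X).symm
  have hm := hmain X hX (fun a => Pool.Agent.U455.APC.cl q (r a)) (fun a => Pool.Agent.U455.APC.adm (hqr a)) A Q
    (fun a => Pool.Agent.U455.APC.sub_Sift (hQ a) (hQp a)) (fun a => by rw [hV]; exact hQc a) d hd
  have hprod : ∏ a : Fin (k + 1), Pool.Agent.Y843.HS.VV (Pool.Agent.U455.APC.cl q (r a)) 0 X = V q X ^ (k + 1) := by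
    rw [Finset.prod_congr rfl (fun a _ => hV a), prod_const, card_univ, Fintype.card_fin]
  rw [hprod] at hm
  have e : ∀ b : Fin k → ℤ, (Pool.Agent.U455.GBD.rep Q d b).card = sols Q d b := by
    intro b
    unfold Pool.Agent.U455.GBD.rep sols
    rfl
  simp only [e] at hm
  exact hm

end Pool.Agent.Results.MP_8bf9c2_nt.DenseSetsManyForms
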