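import Pool.Agent.U828.KD.One
import Pool.Agent.TH935.TF9

/-!
# Primes `q` for which all `d_i q + a_i` are primes: all slopes, and all the constants near almost all values of
arbitrary functions of higher convexity

For `i = 1, …, k` let `f_i` be ANY function on `{1, …, x_i}`, `x_i ≥ N ^ (1 / r_i + η)` (`2 ≤ r_i ≤ R`), with values in
`[-B N, B N]`, whose differences of order `r_i` are all at least `N / (x_i ^ (r_i) (log N) ^ C)`, or all at most the negative
of this number. For all but a proportion `(log N) ^ (-U)` of the vectors `m`, `m_i ≤ x_i`, the following holds for ALL the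
integer vectors `a` with `|a_i - f_i(m_i)| ≤ (log N) ^ C` and ALL the slopes `1 ≤ d_i ≤ (log N) ^ D` for which the system is
admissible: in every interval of length at least `N / (log N) ^ A` up to `B N` on which the `d_i q + a_i` are positive, the
number of the primes `q` for which all the `d_i q + a_i` are primes is the one predicted by Hardy and Littlewood, up to the
factor `1 ± ε`.

For `k = 1` the system is admissible if and only if `gcd (a, d) = 1`, `2 ∣ a d` and `(a, d) ≠ (0, 1)`: so the question has a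
positive answer (with the expected number of `q` in all long intervals up to `B N`) for all the pairs `(a, d)` with
`d ≤ (log N) ^ D` and `a` within `(log N) ^ C` of `f(m)`, for all but `x / (log N) ^ U` of the `m ≤ x`. This is part 2.

For `r_i = 2` these are the strictly convex (or concave) functions. For larger `r_i` there are only `N ^ (1 / r_i + η)`
points, so the constants run through sets of any power `N ^ θ`, `θ > 0`, of elements; no regularity is assumed besides the
sign and the size of the `r_i`-th differences. The earlier results of this problem on individual constants treat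
palindromes, exchangeable digits and bounded numbers of added powers.

Proof: the energy theorem `Pool.Agent.U828.KD.energy_r` (helper828: an `r`-th derivative test for arbitrary sequences, and
Fejér kernels), the passage to all the vectors near the values `Pool.Agent.U828.KD.nearAllZG` (helper828), and the theorem
of the starting files on systems of linear forms with constant terms in families of small energy (`Pool.Agent.TH935.TF`).
-/

set_option autoImplicit false

namespace Pool.Agent.Results.MP_8bf9c2_nt.HigherConvexConstants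

open Finset Filter Topology

/-- the slopes of the `k + 1` linear polynomials `q`, `d i q + a i` -/
def slopes {k : ℕ} (d : Fin k → ℕ) : Fin (k + 1) → ℤ := Fin.cons 1 (fun i => (d i : ℤ))

/-- the constant terms of the `k + 1` linear polynomials `q`, `d i q + a i` -/
def constants {k : ℕ} (a : Fin k → ℤ) : Fin (k + 1) → ℤ := Fin.cons 0 a

/-- The `k + 1` linear polynomials `q`, `d i q + a i` are distinct, `d i > 0`, and for every prime `p` there is an integer
at which none of the values is divisible by `p`. -/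
def Admissible {k : ℕ} (d : Fin k → ℕ) (a : Fin k → ℤ) : Prop :=
  (∀ i, 0 < d i) ∧
  (∀ i j, i ≠ j → ¬ (slopes d i = slopes d j ∧ constants a i = constants a j)) ∧
  (∀ p : ℕ, p.Prime → ∃ n : ℤ, ∀ i, ¬ (p : ℤ) ∣ slopes d i * n + constants a i)

/-- the number of the residue classes modulo `p` in which one of the `k + 1` linear polynomials takes values divisible
by `p` -/
def omega {k : ℕ} (d : Fin k → ℕ) (a : Fin k → ℤ) (p : ℕ) : ℕ :=
  ((range p).filter (fun n : ℕ => ∃ i, (p : ℤ) ∣ slopes d i * (n : ℤ) + constants a i)).card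

/-- the product over the primes `p ≤ z` of the factors `(1 - ω(p) / p) / (1 - 1 / p) ^ (k + 1)` -/
noncomputable def eulerProd {k : ℕ} (d : Fin k → ℕ) (a : Fin k → ℤ) (z : ℕ) : ℝ :=
  ∏ p ∈ (Icc 1 z).filter Nat.Prime, (1 - (omega d a p : ℝ) / p) / (1 - 1 / (p : ℝ)) ^ (k + 1)

/-- the number of the primes `q` with `y₁ < q ≤ y₂` such that all `d i q + a i` are primes -/
noncomputable def count {k : ℕ} (d : Fin k → ℕ) (a : Fin k → ℤ) (y₁ y₂ : ℕ) : ℕ :=
  ((Ioc y₁ y₂).filter (fun q : ℕ => q.Prime ∧ ∀ i, ((d i : ℤ) * q + a i).toNat.Prime)).card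

/-- The product of the Hardy-Littlewood factors over all primes converges to a number `c > 0`, and for all
`y₁ < y₂ ≤ B N` with `y₂ - y₁ ≥ N / (log N) ^ A` and `d i q + a i > 0` for `y₁ < q ≤ y₂`, the number of the primes `q` with
`y₁ < q ≤ y₂` such that all `d i q + a i` are primes is `c (y₂ - y₁) / (log N) ^ (k + 1)`, up to a relative error of at
most `ε`. -/
def Formula (ε : ℝ) (A B N : ℕ) {k : ℕ} (d : Fin k → ℕ) (a : Fin k → ℤ) : Prop :=
  ∃ c : ℝ, 0 < c ∧ Tendsto (eulerProd d a) atTop (𝓝 c) ∧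
    ∀ y₁ y₂ : ℕ, y₁ < y₂ → y₂ ≤ B * N → (N : ℝ) / Real.log N ^ A ≤ (y₂ : ℝ) - y₁ →
      (∀ q ∈ Ioc y₁ y₂, ∀ i, 0 < (d i : ℤ) * q + a i) →
      |(count d a y₁ y₂ : ℝ) - c * ((y₂ : ℝ) - y₁) / Real.log N ^ (k + 1)| ≤
        ε * (c * ((y₂ : ℝ) - y₁) / Real.log N ^ (k + 1))

/-- `Formula` holds for all slopes `d i ≤ (log N) ^ D` such that the system `q`, `d i q + a i` is admissible. -/
def Holds (ε : ℝ) (A B D N : ℕ) {k : ℕ} (a : Fin k → ℤ) : Prop :=
  ∀ d : Fin k → ℕ, (∀ i, (d i : ℝ) ≤ Real.log N ^ D) → Admissible d a → Formula ε A B N d a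

/-- `Formula` (with `k = 1`) holds for all `1 ≤ d ≤ (log N) ^ D` with `gcd (a, d) = 1`, `2 ∣ a d` and `(a, d) ≠ (0, 1)`. -/
def HoldsOne (ε : ℝ) (A B D N : ℕ) (a : ℤ) : Prop :=
  ∀ d : ℕ, 1 ≤ d → (d : ℝ) ≤ Real.log N ^ D → Int.gcd a d = 1 → (2 : ℤ) ∣ a * d → ¬ (a = 0 ∧ d = 1) →
    Formula ε A B N (fun _ : Fin 1 => d) (fun _ => a)

/-- The differences of order `r` of `f` on `{1, ..., x}` are all at least `κ`, or all at most `-κ`. Here `fwdDiff 1 f m`
is the difference `f (m + 1) - f m`. -/
def Bent (r x : ℕ) (f : ℕ → ℝ) (κ : ℝ) : Prop :=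
  (∀ m, 1 ≤ m → m + r ≤ x → κ ≤ (fwdDiff 1)^[r] f m) ∨ (∀ m, 1 ≤ m → m + r ≤ x → (fwdDiff 1)^[r] f m ≤ -κ)

/-- All the integer vectors `a` with `|a i| ≤ B N` and `|a i - f i (m i)| ≤ (log N) ^ C` have the property `P`. -/
def AllNear {k : ℕ} (B C N : ℕ) (f : Fin k → ℕ → ℝ) (m : Fin k → ℕ) (P : (Fin k → ℤ) → Prop) : Prop :=
  ∀ a : Fin k → ℤ, (∀ i, |(a i : ℝ)| ≤ B * N ∧ |(a i : ℝ) - f i (m i)| ≤ Real.log N ^ C) → P a

open Pool.Agent.TH935.TF

lemma holds_of (ε : ℝ) (A B D N : ℕ) {k : ℕ} (b : Fin k → ℤ) (h : HW consA consB ε A B D N b) :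
    Holds ε A B D N b := by
  classical
  intro a ha hadm
  obtain ⟨h1, h2, h3⟩ := hadm
  have eA : consA (fun i => (a i : ℤ)) = slopes a := rfl
  have eB : consB b = constants b := rfl
  have hpos : ∀ i, 0 < slopes a i := by
    intro i
    refine Fin.cases ?_ (fun i => ?_) i
    · exact one_pos
    · show (0 : ℤ) < (a i : ℤ)
      exact_mod_cast h1 i
  have hadm' : Adm (consA (fun i => (a i : ℤ))) (consB b) := by
    rw [eA, eB]
    exact h3
  have hdist : Dist (consA (fun i => (a i : ℤ))) (consB b) := by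
    rw [eA, eB]
    intro i j hij
    refine ⟨h2 i j hij, fun hc => ?_⟩
    have := hpos i
    have := hpos j
    omega
  obtain ⟨S, hS0, hSt, hS⟩ := h (fun i => (a i : ℤ)) (fun i => by have := h1 i; omega)
    (fun i => by simpa using ha i) hadm' hdist
  refine ⟨S, hS0, ?_, fun y₁ y₂ hy hy2 hlen hwin => ?_⟩
  · exact hSt
  · have h4 := hS y₁ y₂ hy.le hy2 hlen
    have e : cn (consA (fun i => (a i : ℤ))) (consB b) y₁ y₂ = count a b y₁ y₂ := by
      unfold cn count
      congr 1
      apply filter_congr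
      intro n hn
      have hw := hwin n hn
      rw [Fin.forall_fin_succ, consA_zero, consB_zero]
      have e1 : ((1 : ℤ) * (n : ℤ) + 0).natAbs = n := by simp
      rw [e1]
      constructor
      · rintro ⟨g1, g2⟩
        refine ⟨g1, fun i => ?_⟩
        have g3 := g2 i
        rw [consA_succ, consB_succ] at g3
        have e2 : ((a i : ℤ) * (n : ℤ) + b i).toNat = ((a i : ℤ) * (n : ℤ) + b i).natAbs := by
          have := hw i
          omega
        rw [e2]
        exact g3
      · rintro ⟨g1, g2⟩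
        refine ⟨g1, fun i => ?_⟩
        have g3 := g2 i
        rw [consA_succ, consB_succ]
        have e2 : ((a i : ℤ) * (n : ℤ) + b i).toNat = ((a i : ℤ) * (n : ℤ) + b i).natAbs := by
          have := hw i
          omega
        rw [e2] at g3
        exact g3
    rw [e] at h4
    exact h4

lemma one_of_holds (ε : ℝ) (A B D N : ℕ) (a : ℤ) (h : Holds ε A B D N (fun _ : Fin 1 => a)) : HoldsOne ε A B D N a := by
  intro d hd1 hdD hgcd h2 hne
  apply h (fun _ => d) (fun _ => hdD)
  refine ⟨fun _ => hd1, ?_, ?_⟩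
  · intro i j hij hcon
    have e1 : ∀ j : Fin 2, j ≠ 0 → slopes (fun _ : Fin 1 => d) j = d ∧ constants (fun _ : Fin 1 => a) j = a := by
      intro j hj
      fin_cases j
      · exact absurd rfl hj
      · exact ⟨rfl, rfl⟩
    have e0 : slopes (fun _ : Fin 1 => d) 0 = 1 ∧ constants (fun _ : Fin 1 => a) 0 = 0 := ⟨rfl, rfl⟩
    have key : (a = 0 ∧ d = 1) := by
      by_cases hi : i = 0
      · have hj : j ≠ 0 := fun hj => hij (by rw [hi, hj])
        have h3 := e1 j hj
        rw [hi] at hcon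
        rw [h3.1, h3.2, e0.1, e0.2] at hcon
        exact ⟨hcon.2.symm, by exact_mod_cast hcon.1.symm⟩
      · by_cases hj : j = 0
        · have h3 := e1 i hi
          rw [hj] at hcon
          rw [h3.1, h3.2, e0.1, e0.2] at hcon
          exact ⟨hcon.2, by exact_mod_cast hcon.1⟩
        · exfalso
          apply hij
          omega
    exact hne key
  · intro p hp
    have hforall : ∀ n : ℤ, (¬ (p : ℤ) ∣ n ∧ ¬ (p : ℤ) ∣ d * n + a) →
        ∀ i, ¬ (p : ℤ) ∣ slopes (fun _ : Fin 1 => d) i * n + constants (fun _ : Fin 1 => a) i := by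
      intro n hn i
      fin_cases i
      · change ¬ (p : ℤ) ∣ 1 * n + 0
        rw [one_mul, add_zero]
        exact hn.1
      · exact hn.2
    rcases hp.eq_two_or_odd with h3 | h3
    · refine ⟨1, hforall 1 ⟨?_, ?_⟩⟩
      · rw [h3]
        norm_num
      · rw [h3, mul_one]
        intro h4
        rcases (Int.prime_two.dvd_mul).1 h2 with h5 | h5
        · have h6 : (2 : ℤ) ∣ d := by
            have := dvd_sub h4 h5
            simpa using this
          have h7 : (2 : ℤ) ∣ (Int.gcd a d : ℤ) := Int.dvd_coe_gcd h5 h6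
          rw [hgcd] at h7
          norm_num at h7
        · have h6 : (2 : ℤ) ∣ a := by
            have := dvd_sub h4 h5
            simpa using this
          have h7 : (2 : ℤ) ∣ (Int.gcd a d : ℤ) := Int.dvd_coe_gcd h6 h5
          rw [hgcd] at h7
          norm_num at h7
    · -- one of `1`, `2` works
      have hp3 : 3 ≤ p := by
        have := hp.two_le
        omega
      by_cases h4 : (p : ℤ) ∣ d * 1 + a
      · refine ⟨2, hforall 2 ⟨?_, ?_⟩⟩
        · intro h5
          have := Int.le_of_dvd (by norm_num) h5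
          omega
        · intro h5
          have h6 : (p : ℤ) ∣ d := by
            have := dvd_sub h5 h4
            have e : (d : ℤ) * 2 + a - (d * 1 + a) = d := by ring
            rw [e] at this
            exact this
          have h7 : (p : ℤ) ∣ a := by
            have := dvd_sub h4 h6
            simpa using this
          have h8 : (p : ℤ) ∣ (Int.gcd a d : ℤ) := Int.dvd_coe_gcd h7 h6
          rw [hgcd] at h8
          have := Int.le_of_dvd (by norm_num) h8
          push_cast at this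
          omega
      · refine ⟨1, hforall 1 ⟨?_, h4⟩⟩
        intro h5
        have := Int.le_of_dvd (by norm_num) h5
        omega

lemma critZ (k : ℕ) (hk : 1 ≤ k) (A B D : ℕ) (ε : ℝ) (hε : 0 < ε) :
    Pool.Agent.U828.CV.CritZ k B (fun N a => Holds ε A B D N a) := by
  intro h C U _
  obtain ⟨N₀, h1⟩ := fam_sys (sys_lam k hk) hk h A B C D U ε hε
  exact ⟨N₀, fun N hN x s hs hE T hT hTb => h1 N hN x s hs hE T hT fun q hq hG => hTb q hq (holds_of ε A B D N _ hG)⟩

open Classical in
/-- Let `R`, `A`, `B`, `C`, `D`, `U`, `η > 0` and `ε > 0` be given.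

1. Let `k ≥ 1`. For all sufficiently large `N`, all orders `r i` with `2 ≤ r i ≤ R`, all `x i ≥ N ^ (1 / r i + η)` and ALL
functions `f i` with values in `[-B N, B N]` on `{1, ..., x i}` whose differences of order `r i` are all at least
`N / ((x i) ^ (r i) (log N) ^ C)`, or all at most the negative of this number: for all but at most `(∏ x i) / (log N) ^ U`
of the vectors `m`, `1 ≤ m i ≤ x i`, ALL the integer vectors `a` with `|a i| ≤ B N` and `|a i - f i (m i)| ≤ (log N) ^ C` have
the property `Holds ε A B D N a`.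

2. For all sufficiently large `N`, all `r`, `x` and all functions `f` as in part 1 (with `k = 1`): for all but at most
`x / (log N) ^ U` of the `m ≤ x`, all the integers `a` with `|a| ≤ B N` and `|a - f m| ≤ (log N) ^ C` have the property
`HoldsOne ε A B D N a`. -/
theorem result (R A B C D U : ℕ) (η ε : ℝ) (hη : 0 < η) (hε : 0 < ε) :
    (∀ k : ℕ, 1 ≤ k → ∃ N₀ : ℕ, ∀ N : ℕ, N₀ ≤ N → ∀ r : Fin k → ℕ, (∀ i, 2 ≤ r i ∧ r i ≤ R) →
      ∀ x : Fin k → ℕ, (∀ i, (N : ℝ) ^ (1 / (r i : ℝ) + η) ≤ x i) →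
      ∀ f : Fin k → ℕ → ℝ, (∀ i, ∀ m ∈ Icc 1 (x i), |f i m| ≤ B * N) →
      (∀ i, Bent (r i) (x i) (f i) (N / ((x i : ℝ) ^ (r i) * Real.log N ^ C))) →
      (((Fintype.piFinset (fun i => Icc 1 (x i))).filter
        (fun m => ¬ AllNear B C N f m (fun a => Holds ε A B D N a))).card : ℝ) ≤ (∏ i, (x i : ℝ)) / Real.log N ^ U) ∧
    (∃ N₀ : ℕ, ∀ N : ℕ, N₀ ≤ N → ∀ r : ℕ, 2 ≤ r → r ≤ R → ∀ x : ℕ, (N : ℝ) ^ (1 / (r : ℝ) + η) ≤ x → ∀ f : ℕ → ℝ,
      (∀ m ∈ Icc 1 x, |f m| ≤ B * N) → Bent r x f (N / ((x : ℝ) ^ r * Real.log N ^ C)) →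
      (((Icc 1 x).filter (fun m => ¬ ∀ a : ℤ, |(a : ℝ)| ≤ B * N → |(a : ℝ) - f m| ≤ Real.log N ^ C →
        HoldsOne ε A B D N a)).card : ℝ) ≤ x / Real.log N ^ U) := by
  have part1 : ∀ k : ℕ, 1 ≤ k → ∃ N₀ : ℕ, ∀ N : ℕ, N₀ ≤ N → ∀ r : Fin k → ℕ, (∀ i, 2 ≤ r i ∧ r i ≤ R) →
      ∀ x : Fin k → ℕ, (∀ i, (N : ℝ) ^ (1 / (r i : ℝ) + η) ≤ x i) →
      ∀ f : Fin k → ℕ → ℝ, (∀ i, ∀ m ∈ Icc 1 (x i), |f i m| ≤ B * N) →
      (∀ i, Bent (r i) (x i) (f i) (N / ((x i : ℝ) ^ (r i) * Real.log N ^ C))) →
      (((Fintype.piFinset (fun i => Icc 1 (x i))).filter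
        (fun m => ¬ AllNear B C N f m (fun a => Holds ε A B D N a))).card : ℝ) ≤
        (∏ i, (x i : ℝ)) / Real.log N ^ U := by
    intro k hk
    obtain ⟨N₀, h0⟩ := Pool.Agent.U828.KD.nearAllZG (critZ k hk A B D ε hε) R C U η hη
    refine ⟨N₀, fun N hN r hr x hx f hf hb => ?_⟩
    apply h0 N hN r hr x hx f hf hb _ (filter_subset _ _)
    intro m hm
    have h1 := (mem_filter.1 hm).2
    unfold AllNear at h1
    push Not at h1
    exact h1
  refine ⟨part1, ?_⟩
  obtain ⟨N₀, h0⟩ := part1 1 le_rfl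
  refine ⟨N₀, fun N hN r hr hrR x hx f hf hb => ?_⟩
  have key := h0 N hN (fun _ => r) (fun _ => ⟨hr, hrR⟩) (fun _ => x) (fun _ => hx) (fun _ => f) (fun _ => hf)
    (fun _ => hb)
  rw [Fin.prod_univ_one] at key
  refine le_trans ?_ key
  rw [Nat.cast_le]
  apply card_le_card_of_injOn (fun m => fun _ : Fin 1 => m)
  · intro m hm
    rw [mem_coe, mem_filter] at hm
    rw [mem_coe, mem_filter, Fintype.mem_piFinset]
    refine ⟨fun _ => hm.1, fun hcon => hm.2 fun a ha1 ha2 => ?_⟩
    exact one_of_holds ε A B D N a (hcon (fun _ => a) (fun _ => ⟨ha1, ha2⟩))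
  · intro m _ m' _ hmm
    exact congrFun hmm 0

end Pool.Agent.Results.MP_8bf9c2_nt.HigherConvexConstants
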