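import Pool.Agent.U108.ML.K

/-!
# Primes `q` for which all `d_i q + a_i` are primes: all slopes, and all the constants near products of thin families plus
arbitrary functions of fewer coordinates, and near determinants

Let `u_l : I_l → ℤ`, `1 ≤ l ≤ s`, be `s ≥ 2` arbitrary finite families of integers, `|u_l| ≤ N_l`, `N_1 ⋯ N_s = P`, whose
additive energy of some order is minimal up to powers of `log P` (the primes, the powers of a fixed exponent, the values of
a polynomial at integers or at primes, any subset of `[1, N_l]` with at least `N_l / (log P) ^ C` elements, ...). For almost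
all `j ∈ I_1 × ⋯ × I_s`, ALL the integers `a` close to

  `v(j) = c u_1(j_1) ⋯ u_s(j_s) + R_1(j) + ⋯ + R_s(j)`

(where `R_l` is an ARBITRARY function with integral values which does not depend on the `l`-th coordinate), and ALL the
slopes `1 ≤ d ≤ (log P) ^ D` with `gcd (a, d) = 1`, `2 ∣ a d` are good: in all long intervals up to `B P` there is the
expected number of primes `q` for which `d q + a` is a prime. The same holds near the determinants of the `s × s` matrices
whose diagonal entries run through thin families, the entries off the diagonal being ARBITRARY fixed integers, and for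
systems `q`, `d_1 q + a_1`, ..., `d_k q + a_k` with `k` vectors of families.

Method: the energy theorem for multilinear values (`Pool.Agent.U108.ML.energy`: Cauchy, Schwarz, Hölder, and a mean value of
the divisor function), the passage to all the vectors near the values (`Pool.Agent.U108.ML.near_fam`), and the theorem of
the starting files on systems of linear forms with constant terms in families of small energy (`Pool.Agent.TH935.TF`). The
definitions of the Hardy-Littlewood formula and two lemmas on it are those of helper828's file `HigherConvexConstants`.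
-/

set_option autoImplicit false

namespace Pool.Agent.Results.MP_8bf9c2_nt.MultilinearConstants

open Finset Filter Topology

/-- the slopes of the `k + 1` linear polynomials `q`, `d i q + a i` -/
def slopes {k : ℕ} (d : Fin k → ℕ) : Fin (k + 1) → ℤ := Fin.cons 1 (fun i => (d i : ℤ))

/-- the constant terms of the `k + 1` linear polynomials `q`, `d i q + a i` -/
def constants {k : ℕ} (a : Fin k → ℤ) : Fin (k + 1) → ℤ := Fin.cons 0 a

/-- The `k + 1` linear polynomials `q`, `d i q + a i` are distinct, `d i > 0`, and for every prime `p` there is an integer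
at which none of the values is divisible by `p`. -/
def Admissible {k : ℕ} (d : Fin k → ℕ) (a : Fin k → ℤ) : Prop :=
  (∀ i, 0 < d i) ∧
  (∀ i j, i ≠ j → ¬ (slopes d i = slopes d j ∧ constants a i = constants a j)) ∧
  (∀ p : ℕ, p.Prime → ∃ n : ℤ, ∀ i, ¬ (p : ℤ) ∣ slopes d i * n + constants a i)

/-- the number of the residue classes modulo `p` in which one of the `k + 1` linear polynomials takes values divisible
by `p` -/
def omega {k : ℕ} (d : Fin k → ℕ) (a : Fin k → ℤ) (p : ℕ) : ℕ :=
  ((range p).filter (fun n : ℕ => ∃ i, (p : ℤ) ∣ slopes d i * (n : ℤ) + constants a i)).card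

/-- the product over the primes `p ≤ z` of the factors `(1 - ω(p) / p) / (1 - 1 / p) ^ (k + 1)` -/
noncomputable def eulerProd {k : ℕ} (d : Fin k → ℕ) (a : Fin k → ℤ) (z : ℕ) : ℝ :=
  ∏ p ∈ (Icc 1 z).filter Nat.Prime, (1 - (omega d a p : ℝ) / p) / (1 - 1 / (p : ℝ)) ^ (k + 1)

/-- the number of the primes `q` with `y₁ < q ≤ y₂` such that all `d i q + a i` are primes -/
noncomputable def count {k : ℕ} (d : Fin k → ℕ) (a : Fin k → ℤ) (y₁ y₂ : ℕ) : ℕ :=
  ((Ioc y₁ y₂).filter (fun q : ℕ => q.Prime ∧ ∀ i, ((d i : ℤ) * q + a i).toNat.Prime)).card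

/-- The product of the Hardy-Littlewood factors over all primes converges to a number `c > 0`, and for all
`y₁ < y₂ ≤ B N` with `y₂ - y₁ ≥ N / (log N) ^ A` and `d i q + a i > 0` for `y₁ < q ≤ y₂`, the number of the primes `q` with
`y₁ < q ≤ y₂` such that all `d i q + a i` are primes is `c (y₂ - y₁) / (log N) ^ (k + 1)`, up to a relative error of at
most `ε`. -/
def Formula (ε : ℝ) (A B N : ℕ) {k : ℕ} (d : Fin k → ℕ) (a : Fin k → ℤ) : Prop :=
  ∃ c : ℝ, 0 < c ∧ Tendsto (eulerProd d a) atTop (𝓝 c) ∧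
    ∀ y₁ y₂ : ℕ, y₁ < y₂ → y₂ ≤ B * N → (N : ℝ) / Real.log N ^ A ≤ (y₂ : ℝ) - y₁ →
      (∀ q ∈ Ioc y₁ y₂, ∀ i, 0 < (d i : ℤ) * q + a i) →
      |(count d a y₁ y₂ : ℝ) - c * ((y₂ : ℝ) - y₁) / Real.log N ^ (k + 1)| ≤
        ε * (c * ((y₂ : ℝ) - y₁) / Real.log N ^ (k + 1))

/-- `Formula` holds for all slopes `d i ≤ (log N) ^ D` such that the system `q`, `d i q + a i` is admissible. -/
def Holds (ε : ℝ) (A B D N : ℕ) {k : ℕ} (a : Fin k → ℤ) : Prop :=
  ∀ d : Fin k → ℕ, (∀ i, (d i : ℝ) ≤ Real.log N ^ D) → Admissible d a → Formula ε A B N d a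

/-- `Formula` (with `k = 1`) holds for all `1 ≤ d ≤ (log N) ^ D` with `gcd (a, d) = 1`, `2 ∣ a d` and `(a, d) ≠ (0, 1)`. -/
def HoldsOne (ε : ℝ) (A B D N : ℕ) (a : ℤ) : Prop :=
  ∀ d : ℕ, 1 ≤ d → (d : ℝ) ≤ Real.log N ^ D → Int.gcd a d = 1 → (2 : ℤ) ∣ a * d → ¬ (a = 0 ∧ d = 1) →
    Formula ε A B N (fun _ : Fin 1 => d) (fun _ => a)

open Pool.Agent.TH935.TF

lemma holds_of (ε : ℝ) (A B D N : ℕ) {k : ℕ} (b : Fin k → ℤ) (h : HW consA consB ε A B D N b) :
    Holds ε A B D N b := by
  classical
  intro a ha hadm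
  obtain ⟨h1, h2, h3⟩ := hadm
  have eA : consA (fun i => (a i : ℤ)) = slopes a := rfl
  have eB : consB b = constants b := rfl
  have hpos : ∀ i, 0 < slopes a i := by
    intro i
    refine Fin.cases ?_ (fun i => ?_) i
    · exact one_pos
    · show (0 : ℤ) < (a i : ℤ)
      exact_mod_cast h1 i
  have hadm' : Adm (consA (fun i => (a i : ℤ))) (consB b) := by
    rw [eA, eB]
    exact h3
  have hdist : Dist (consA (fun i => (a i : ℤ))) (consB b) := by
    rw [eA, eB]
    intro i j hij
    refine ⟨h2 i j hij, fun hc => ?_⟩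
    have := hpos i
    have := hpos j
    omega
  obtain ⟨S, hS0, hSt, hS⟩ := h (fun i => (a i : ℤ)) (fun i => by have := h1 i; omega)
    (fun i => by simpa using ha i) hadm' hdist
  refine ⟨S, hS0, ?_, fun y₁ y₂ hy hy2 hlen hwin => ?_⟩
  · exact hSt
  · have h4 := hS y₁ y₂ hy.le hy2 hlen
    have e : cn (consA (fun i => (a i : ℤ))) (consB b) y₁ y₂ = count a b y₁ y₂ := by
      unfold cn count
      congr 1
      apply filter_congr
      intro n hn
      have hw := hwin n hn
      rw [Fin.forall_fin_succ, consA_zero, consB_zero]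
      have e1 : ((1 : ℤ) * (n : ℤ) + 0).natAbs = n := by simp
      rw [e1]
      constructor
      · rintro ⟨g1, g2⟩
        refine ⟨g1, fun i => ?_⟩
        have g3 := g2 i
        rw [consA_succ, consB_succ] at g3
        have e2 : ((a i : ℤ) * (n : ℤ) + b i).toNat = ((a i : ℤ) * (n : ℤ) + b i).natAbs := by
          have := hw i
          omega
        rw [e2]
        exact g3
      · rintro ⟨g1, g2⟩
        refine ⟨g1, fun i => ?_⟩
        have g3 := g2 i
        rw [consA_succ, consB_succ]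
        have e2 : ((a i : ℤ) * (n : ℤ) + b i).toNat = ((a i : ℤ) * (n : ℤ) + b i).natAbs := by
          have := hw i
          omega
        rw [e2] at g3
        exact g3
    rw [e] at h4
    exact h4

lemma one_of_holds (ε : ℝ) (A B D N : ℕ) (a : ℤ) (h : Holds ε A B D N (fun _ : Fin 1 => a)) : HoldsOne ε A B D N a := by
  intro d hd1 hdD hgcd h2 hne
  apply h (fun _ => d) (fun _ => hdD)
  refine ⟨fun _ => hd1, ?_, ?_⟩
  · intro i j hij hcon
    have e1 : ∀ j : Fin 2, j ≠ 0 → slopes (fun _ : Fin 1 => d) j = d ∧ constants (fun _ : Fin 1 => a) j = a := by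
      intro j hj
      fin_cases j
      · exact absurd rfl hj
      · exact ⟨rfl, rfl⟩
    have e0 : slopes (fun _ : Fin 1 => d) 0 = 1 ∧ constants (fun _ : Fin 1 => a) 0 = 0 := ⟨rfl, rfl⟩
    have key : (a = 0 ∧ d = 1) := by
      by_cases hi : i = 0
      · have hj : j ≠ 0 := fun hj => hij (by rw [hi, hj])
        have h3 := e1 j hj
        rw [hi] at hcon
        rw [h3.1, h3.2, e0.1, e0.2] at hcon
        exact ⟨hcon.2.symm, by exact_mod_cast hcon.1.symm⟩
      · by_cases hj : j = 0
        · have h3 := e1 i hi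
          rw [hj] at hcon
          rw [h3.1, h3.2, e0.1, e0.2] at hcon
          exact ⟨hcon.2, by exact_mod_cast hcon.1⟩
        · exfalso
          apply hij
          omega
    exact hne key
  · intro p hp
    have hforall : ∀ n : ℤ, (¬ (p : ℤ) ∣ n ∧ ¬ (p : ℤ) ∣ d * n + a) →
        ∀ i, ¬ (p : ℤ) ∣ slopes (fun _ : Fin 1 => d) i * n + constants (fun _ : Fin 1 => a) i := by
      intro n hn i
      fin_cases i
      · change ¬ (p : ℤ) ∣ 1 * n + 0
        rw [one_mul, add_zero]
        exact hn.1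
      · exact hn.2
    rcases hp.eq_two_or_odd with h3 | h3
    · refine ⟨1, hforall 1 ⟨?_, ?_⟩⟩
      · rw [h3]
        norm_num
      · rw [h3, mul_one]
        intro h4
        rcases (Int.prime_two.dvd_mul).1 h2 with h5 | h5
        · have h6 : (2 : ℤ) ∣ d := by
            have := dvd_sub h4 h5
            simpa using this
          have h7 : (2 : ℤ) ∣ (Int.gcd a d : ℤ) := Int.dvd_coe_gcd h5 h6
          rw [hgcd] at h7
          norm_num at h7
        · have h6 : (2 : ℤ) ∣ a := by
            have := dvd_sub h4 h5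
            simpa using this
          have h7 : (2 : ℤ) ∣ (Int.gcd a d : ℤ) := Int.dvd_coe_gcd h6 h5
          rw [hgcd] at h7
          norm_num at h7
    · -- one of `1`, `2` works
      have hp3 : 3 ≤ p := by
        have := hp.two_le
        omega
      by_cases h4 : (p : ℤ) ∣ d * 1 + a
      · refine ⟨2, hforall 2 ⟨?_, ?_⟩⟩
        · intro h5
          have := Int.le_of_dvd (by norm_num) h5
          omega
        · intro h5
          have h6 : (p : ℤ) ∣ d := by
            have := dvd_sub h5 h4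
            have e : (d : ℤ) * 2 + a - (d * 1 + a) = d := by ring
            rw [e] at this
            exact this
          have h7 : (p : ℤ) ∣ a := by
            have := dvd_sub h4 h6
            simpa using this
          have h8 : (p : ℤ) ∣ (Int.gcd a d : ℤ) := Int.dvd_coe_gcd h7 h6
          rw [hgcd] at h8
          have := Int.le_of_dvd (by norm_num) h8
          push_cast at this
          omega
      · refine ⟨1, hforall 1 ⟨?_, h4⟩⟩
        intro h5
        have := Int.le_of_dvd (by norm_num) h5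
        omega


/-- The additive energy of order `h` of a finite family `u`: the number of the solutions of
`u(x_1) + ⋯ + u(x_h) = u(y_1) + ⋯ + u(y_h)`. -/
noncomputable def energy (h : ℕ) {ι : Type} [Fintype ι] (u : ι → ℤ) : ℕ :=
  Nat.card {q : (Fin h → ι) × (Fin h → ι) // ∑ j, u (q.1 j) = ∑ j, u (q.2 j)}

/-- `u` is a finite family of integers in `[-N, N]`, and its energy of order `h` is at most `(log P) ^ C` times
`(number of the elements) ^ (2 h) / N`. -/
def Thin (h C P N : ℕ) {ι : Type} [Fintype ι] (u : ι → ℤ) : Prop :=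
  (∀ i, |u i| ≤ N) ∧ (energy h u : ℝ) * N ≤ Real.log P ^ C * (Fintype.card ι : ℝ) ^ (2 * h)

/-- `v(j) = c ∏ u_l(j_l) + ∑ R_l(j)` with an integer `c`, `0 < |c| ≤ (log P) ^ B`, and ARBITRARY functions `R_l` with
integral values such that `R_l` does not depend on the `l`-th coordinate; or `v(j)` is the determinant of the matrix with
the diagonal entries `u_l(j_l)` and with fixed integral entries off the diagonal. -/
def Multilinear (B P : ℕ) {s : ℕ} {I : Fin s → Type} (u : ∀ l, I l → ℤ) (v : (∀ l, I l) → ℤ) : Prop :=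
  (∃ (c : ℤ) (R : Fin s → (∀ l, I l) → ℤ), c ≠ 0 ∧ |(c : ℝ)| ≤ Real.log P ^ B ∧
    (∀ l j x, R l (Function.update j l x) = R l j) ∧ ∀ j, v j = c * ∏ l, u l (j l) + ∑ l, R l j) ∨
  (∃ M : Matrix (Fin s) (Fin s) ℤ, ∀ j, v j = (Matrix.of fun a b => if a = b then u a (j a) else M a b).det)

lemma formula_mono {ε : ℝ} {A B D N k : ℕ} {d : Fin k → ℕ} {a : Fin k → ℤ} (h : Formula ε A (B + 1) N d a) :
    Formula ε A B N d a := by
  obtain ⟨c, hc, ht, h1⟩ := h
  refine ⟨c, hc, ht, fun y₁ y₂ hy hy2 => h1 y₁ y₂ hy (hy2.trans ?_)⟩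
  exact Nat.mul_le_mul_right _ (by omega)

lemma holds_mono {ε : ℝ} {A B D N k : ℕ} {a : Fin k → ℤ} (h : Holds ε A (B + 1) D N a) : Holds ε A B D N a :=
  fun d hd hadm => formula_mono (D := D) (h d hd hadm)

lemma crit (k : ℕ) (hk : 1 ≤ k) (A B D : ℕ) (ε : ℝ) (hε : 0 < ε) :
    Pool.Agent.U108.ML.CritB B (fun N (a : Fin k → ℤ) => Holds ε A B D N a) := by
  intro h C U
  obtain ⟨N₀, h1⟩ := fam_sys (sys_lam k hk) hk h A B C D U ε hε
  exact ⟨N₀, fun N hN x s hs hE T hT hTb => h1 N hN x s hs hE T hT fun q hq hG => hTb q hq (holds_of ε A B D N _ hG)⟩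

/-- every multilinear value is a product plus functions of fewer coordinates -/
lemma shape {B P s : ℕ} (hs : 1 ≤ s) (hP : 1 ≤ Real.log P) {I : Fin s → Type} {u : ∀ l, I l → ℤ} {v : (∀ l, I l) → ℤ}
    (h : Multilinear B P u v) : ∃ (c : ℤ) (R : Fin s → (∀ l, I l) → ℤ), c ≠ 0 ∧ |(c : ℝ)| ≤ Real.log P ^ B ∧
    (∀ l j x, R l (Function.update j l x) = R l j) ∧ ∀ j, v j = c * ∏ l, u l (j l) + ∑ l, R l j := by
  rcases h with h | ⟨M, hM⟩
  · exact h
  · obtain ⟨R, hR1, hR2⟩ := Pool.Agent.U108.ML.det_withDiag hs M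
    refine ⟨1, fun k i => R k (fun k => u k (i k)), one_ne_zero, ?_, ?_, ?_⟩
    · rw [Int.cast_one, abs_one]
      exact one_le_pow₀ hP
    · intro k i x
      have h2 : (fun l => u l (Function.update i k x l)) = Function.update (fun l => u l (i l)) k (u k x) := by
        funext l
        by_cases hl : l = k
        · subst hl
          rw [Function.update_self, Function.update_self]
        · rw [Function.update_of_ne hl, Function.update_of_ne hl]
      simp only
      rw [h2, hR1]
    · intro i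
      rw [hM i, one_mul]
      exact hR2 (fun k => u k (i k))

open Classical in
/-- **All small slopes and all the constants near multilinear values of thin families.** Let `h ≥ 1`, `s ≥ 2`, `m`, `A`,
`B`, `C`, `D`, `W`, `U` and `ε > 0` be given.

1. Let `k ≥ 1` and let `P` be sufficiently large. Let `P = N_(i,1) ⋯ N_(i,s)` with `N_(i,l) ^ m ≥ P` for `1 ≤ i ≤ k`, let
`u_(i,l) : I_(i,l) → ℤ` be finite families with `Thin h C P N_(i,l)`, and let `v_i` be functions on `∏_l I_(i,l)` with
`Multilinear B P u_i v_i` and `|v_i| ≤ B P`. For all but at most the share `(log P) ^ (-U)` of the vectors `q`,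
`q_i ∈ ∏_l I_(i,l)`, ALL the integer vectors `a` with `|a_i - v_i(q_i)| ≤ (log P) ^ W` have the property
`Holds ε A B D P a`.

2. The same for `k = 1`, for one function `v`, with the property `HoldsOne ε A B D P a`. -/
theorem result (h s m A B C D W U : ℕ) (hh : 1 ≤ h) (hs : 2 ≤ s) (ε : ℝ) (hε : 0 < ε) :
    (∀ k : ℕ, 1 ≤ k → ∃ P₀ : ℕ, ∀ (P : ℕ) (N : Fin k → Fin s → ℕ), P₀ ≤ P → (∀ i, ∏ l, N i l = P) →
      (∀ i l, P ≤ N i l ^ m) →
      ∀ (I : Fin k → Fin s → Type) [∀ i l, Fintype (I i l)] (u : ∀ i l, I i l → ℤ), (∀ i l, Thin h C P (N i l) (u i l)) →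
      ∀ v : ∀ i, (∀ l, I i l) → ℤ, (∀ i, Multilinear B P (u i) (v i)) → (∀ i j, |v i j| ≤ B * P) →
      (((univ : Finset (∀ i, ∀ l, I i l)).filter (fun q => ¬ ∀ a : Fin k → ℤ,
        (∀ i, |(a i : ℝ) - v i (q i)| ≤ Real.log P ^ W) → Holds ε A B D P a)).card : ℝ) ≤
        (∏ i, ∏ l, (Fintype.card (I i l) : ℝ)) / Real.log P ^ U) ∧
    (∃ P₀ : ℕ, ∀ (P : ℕ) (N : Fin s → ℕ), P₀ ≤ P → ∏ l, N l = P → (∀ l, P ≤ N l ^ m) →
      ∀ (I : Fin s → Type) [∀ l, Fintype (I l)] (u : ∀ l, I l → ℤ), (∀ l, Thin h C P (N l) (u l)) →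
      ∀ v : (∀ l, I l) → ℤ, Multilinear B P u v → (∀ j, |v j| ≤ B * P) →
      (((univ : Finset (∀ l, I l)).filter (fun j => ¬ ∀ a : ℤ, |(a : ℝ) - v j| ≤ Real.log P ^ W →
        HoldsOne ε A B D P a)).card : ℝ) ≤ (∏ l, (Fintype.card (I l) : ℝ)) / Real.log P ^ U) := by
  obtain ⟨r, rfl⟩ : ∃ r, s = r + 2 := ⟨s - 2, by omega⟩
  have part1 : ∀ k : ℕ, 1 ≤ k → ∃ P₀ : ℕ, ∀ (P : ℕ) (N : Fin k → Fin (r + 2) → ℕ), P₀ ≤ P → (∀ i, ∏ l, N i l = P) →
      (∀ i l, P ≤ N i l ^ m) →
      ∀ (I : Fin k → Fin (r + 2) → Type) [∀ i l, Fintype (I i l)] (u : ∀ i l, I i l → ℤ),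
      (∀ i l, Thin h C P (N i l) (u i l)) →
      ∀ v : ∀ i, (∀ l, I i l) → ℤ, (∀ i, Multilinear B P (u i) (v i)) → (∀ i j, |v i j| ≤ B * P) →
      (((univ : Finset (∀ i, ∀ l, I i l)).filter (fun q => ¬ ∀ a : Fin k → ℤ,
        (∀ i, |(a i : ℝ) - v i (q i)| ≤ Real.log P ^ W) → Holds ε A B D P a)).card : ℝ) ≤
        (∏ i, ∏ l, (Fintype.card (I i l) : ℝ)) / Real.log P ^ U := by
    intro k hk
    obtain ⟨P₁, h1⟩ := Pool.Agent.U108.ML.near_fam r h (m + 2) B C W U hh (by omega)
      (fun N (a : Fin k → ℤ) => Holds ε A (B + 1) D N a) (crit k hk A (B + 1) D ε hε)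
    refine ⟨P₁ + 3, ?_⟩
    intro P N hP hNP hNm I _ u hu v hv hvb
    have hlP : (1 : ℝ) ≤ Real.log P := by
      rw [Real.le_log_iff_exp_le (by exact_mod_cast (by omega : 0 < P))]
      have h3 : (3 : ℝ) ≤ P := by exact_mod_cast (by omega : 3 ≤ P)
      have := Real.exp_one_lt_d9
      linarith
    have hNm' : ∀ i l, P ≤ N i l ^ (m + 2) := by
      intro i l
      have hN0 : 0 < N i l := by
        rcases Nat.eq_zero_or_pos (N i l) with h0 | h0
        · have h2 : ∏ l, N i l = 0 := prod_eq_zero (mem_univ l) h0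
          have := hNP i
          omega
        · exact h0
      exact (hNm i l).trans (Nat.pow_le_pow_right hN0 (by omega))
    choose c R hc0 hcB hR hcR using fun i => shape (by omega : 1 ≤ r + 2) hlP (hv i)
    have key := h1 P N (by omega) hNP hNm' I u (fun i l => (hu i l).1) (fun i l => (hu i l).2) c hc0 hcB R hR v hcR hvb
      (univ.filter (fun q => ¬ ∀ a : Fin k → ℤ, (∀ i, |(a i : ℝ) - v i (q i)| ≤ Real.log P ^ W) → Holds ε A B D P a))
      (by
        intro q hq
        have h4 := (mem_filter.1 hq).2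
        push Not at h4
        obtain ⟨a, ha1, ha2⟩ := h4
        exact ⟨a, ha1, fun h5 => ha2 (holds_mono h5)⟩)
    refine key.trans (le_of_eq ?_)
    congr 1
    apply prod_congr rfl
    intro i _
    rw [Fintype.card_pi]
    push_cast
    rfl
  refine ⟨part1, ?_⟩
  obtain ⟨P₀, h0⟩ := part1 1 le_rfl
  refine ⟨P₀, fun P N hP hNP hNm I _ u hu v hv hvb => ?_⟩
  have key := h0 P (fun _ => N) hP (fun _ => hNP) (fun _ => hNm) (fun _ => I) (fun _ => u) (fun _ => hu) (fun _ => v)
    (fun _ => hv) (fun _ => hvb)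
  rw [Fin.prod_univ_one] at key
  refine le_trans ?_ key
  rw [Nat.cast_le]
  apply card_le_card_of_injOn (fun j => fun _ : Fin 1 => j)
  · intro j hj
    rw [mem_coe, mem_filter] at hj
    rw [mem_coe, mem_filter]
    refine ⟨mem_univ _, fun hcon => hj.2 fun a ha => ?_⟩
    exact one_of_holds ε A B D P a (hcon (fun _ => a) (fun _ => ha))
  · intro j _ j' _ hjj
    exact congrFun hjj 0

end Pool.Agent.Results.MP_8bf9c2_nt.MultilinearConstants
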