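import Pool.Agent.U28.SF.SF15
import Pool.Agent.Results.MP_8bf9c2_nt.FixedConstantsExact

set_option autoImplicit false

/-!
# The primes `q` for which all `a_i + q d_i` are prime, in all short intervals

For fixed nonzero integers `a_1, ..., a_k` and every `A ≥ 1` a positive proportion of all `(d_1, ..., d_k) ∈ [1, D]^k`,
`x (log x) ^ K ≤ D ≤ x ^ A`, has the following property: the number of the primes `q ≤ x` for which all `a_i + q d_i` are
prime has the conjectured order of magnitude (starting hand-in `FixedConstantsExact`), and for a positive proportion of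
the integers `n ≤ x` ALL the intervals `(n, n + H]`, `H ≤ x`, in which at least one such `q` is expected contain the
right order of them; the same for every subset `U` of positive relative density, and even for the elements of `U` which
are the first of `m` terms of an arithmetic progression in `U` with difference at most a power of `log x`.

More generally this holds for ALL integers `a_i` (of any size) and ALL slopes `d_i ≤ x ^ A` as soon as there is a
positive proportion of the expected number of primes `q`.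
-/

namespace Pool.Agent.Results.MP_8bf9c2_nt.SlopesInAllShortIntervals

open Finset Filter

/-- the number of residues `n` modulo `p` for which `p` divides `n (a_1 + d_1 n) ... (a_k + d_k n)` -/
def roots {k : ℕ} (a : Fin k → ℤ) (d : Fin k → ℕ) (p : ℕ) : ℕ :=
  ((range p).filter (fun n : ℕ => (p : ℤ) ∣ (n : ℤ) * ∏ i, (a i + (d i : ℤ) * n))).card

/-- the Hardy-Littlewood constant of the forms `n, a_1 + d_1 n, ..., a_k + d_k n` -/
noncomputable def series {k : ℕ} (a : Fin k → ℤ) (d : Fin k → ℕ) : ℝ :=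
  ∏' p : Nat.Primes, (1 - (roots a d p : ℝ) / ((p : ℕ) : ℝ)) / (1 - 1 / ((p : ℕ) : ℝ)) ^ (k + 1)

open Classical in
/-- the primes `q ≤ x` for which all `a_i + q d_i` are prime -/
noncomputable def Q {k : ℕ} (a : Fin k → ℤ) (d : Fin k → ℕ) (x : ℕ) : Finset ℕ :=
  (Icc 1 x).filter (fun q : ℕ => q.Prime ∧ ∀ i, ∃ p : ℕ, p.Prime ∧ a i + (q : ℤ) * d i = p)

/-- the pairs `(a_i, d_i)` are different from each other and from `(0, 1)`, and `a_i`, `d_i ≥ 1` are coprime -/
def Proper {k : ℕ} (a : Fin k → ℤ) (d : Fin k → ℕ) : Prop :=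
  (∀ i, 1 ≤ d i ∧ IsCoprime (d i : ℤ) (a i) ∧ ¬ (a i = 0 ∧ d i = 1)) ∧ ∀ i j, i ≠ j → ¬ (a i = a j ∧ d i = d j)

/-- `q` is the first of `m` terms of an arithmetic progression in `U` with difference between `1` and `D` -/
def FirstTerm (m : ℕ) (D : ℝ) (U : Finset ℕ) (q : ℕ) : Prop :=
  ∃ r : ℕ, 1 ≤ r ∧ (r : ℝ) ≤ D ∧ ∀ j < m, q + j * r ∈ U

open Classical in
/-- At least `κ x` of the integers `0 ≤ n ≤ x` are such that for ALL natural numbers `H ≤ x` with `μ H ≥ 1` the
interval `(n, n + H]` contains at least `κ μ H` integers with the property `P`. -/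
def Everywhere (κ μ : ℝ) (x : ℕ) (P : ℕ → Prop) : Prop :=
  κ * x ≤ (((range (x + 1)).filter (fun n => ∀ H : ℕ, 1 ≤ μ * H → H ≤ x →
    κ * (μ * H) ≤ (((Ioc n (n + H)).filter P).card : ℝ))).card : ℝ)

/-- With `μ = series a d / (log x) ^ (k + 1)`: the series is positive, `Q a d x` has at least `κ μ x` elements, and every
subset `U` of `Q a d x` of relative density at least `ρ` satisfies `Everywhere κ μ x (FirstTerm m D U)`. -/
def Good {k : ℕ} (κ ρ : ℝ) (m : ℕ) (D : ℝ) (x : ℕ) (a : Fin k → ℤ) (d : Fin k → ℕ) : Prop :=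
  0 < series a d ∧ κ * (series a d / Real.log x ^ (k + 1) * x) ≤ (Q a d x).card ∧
    ∀ U ⊆ Q a d x, ρ * (Q a d x).card ≤ U.card →
      Everywhere κ (series a d / Real.log x ^ (k + 1)) x (FirstTerm m D U)

open Pool.Agent.U28.SF (wI SI PrimI)

/-- the forms -/
def forms {k : ℕ} (a : Fin k → ℤ) (d : Fin k → ℕ) : Finset (ℕ × ℤ) := insert (1, 0) (univ.image (fun i => (d i, a i)))

lemma card_forms {k : ℕ} {a : Fin k → ℤ} {d : Fin k → ℕ} (h : Proper a d) : (forms a d).card = k + 1 := by
  unfold forms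
  rw [card_insert_of_notMem, card_image_of_injective, card_univ, Fintype.card_fin]
  · intro i j hij
    by_contra hne
    rw [Prod.mk.injEq] at hij
    exact h.2 i j hne ⟨hij.2, hij.1⟩
  · intro hmem
    rw [mem_image] at hmem
    obtain ⟨i, -, hi⟩ := hmem
    rw [Prod.mk.injEq] at hi
    exact (h.1 i).2.2 ⟨hi.2, hi.1⟩

lemma prim_forms {k : ℕ} {a : Fin k → ℤ} {d : Fin k → ℕ} (h : Proper a d) : PrimI (forms a d) := by
  intro L hL
  unfold forms at hL
  rw [mem_insert, mem_image] at hL
  rcases hL with rfl | ⟨i, -, rfl⟩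
  · exact ⟨le_rfl, by exact_mod_cast isCoprime_one_left⟩
  · exact ⟨(h.1 i).1, (h.1 i).2.1⟩

lemma w_forms {k : ℕ} (a : Fin k → ℤ) (d : Fin k → ℕ) {p : ℕ} (hp : p.Prime) : wI (forms a d) p = roots a d p := by
  classical
  unfold wI roots
  congr 1
  apply filter_congr
  intro n _
  have hpi : Prime (p : ℤ) := Nat.prime_iff_prime_int.1 hp
  rw [hpi.dvd_mul, hpi.dvd_finsetProd_iff]
  constructor
  · rintro ⟨L, hL, hd⟩
    unfold forms at hL
    rw [mem_insert, mem_image] at hL
    rcases hL with rfl | ⟨i, -, rfl⟩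
    · left
      simpa using hd
    · right
      refine ⟨i, mem_univ i, ?_⟩
      rw [add_comm]
      exact hd
  · rintro (h | ⟨i, -, h⟩)
    · exact ⟨(1, 0), by unfold forms; exact mem_insert_self _ _, by simpa using h⟩
    · refine ⟨(d i, a i), by unfold forms; exact mem_insert_of_mem (mem_image_of_mem _ (mem_univ i)), ?_⟩
      rw [add_comm]
      exact h

lemma S_forms {k : ℕ} {a : Fin k → ℤ} {d : Fin k → ℕ} (h : Proper a d) : SI (forms a d) = series a d := by
  unfold SI series
  apply tprod_congr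
  intro p
  rw [w_forms a d p.2, card_forms h]

lemma series_pos {k : ℕ} {a : Fin k → ℤ} {d : Fin k → ℕ} (h : Proper a d)
    (hadm : ∀ p : ℕ, p.Prime → roots a d p < p) : 0 < series a d := by
  obtain ⟨c, hc, hge⟩ := Pool.Agent.Y840.PT.SL_ge (k + 1)
  obtain ⟨v, hv⟩ : ∃ v : ℕ, v = ∑ L ∈ forms a d, L.2.natAbs := ⟨_, rfl⟩
  have hpos : ∀ L ∈ forms a d, 0 ≤ (L.1 : ℤ) * v + L.2 := by
    intro L hL
    have h1 : L.2.natAbs ≤ v := by
      rw [hv]
      exact single_le_sum (f := fun L : ℕ × ℤ => L.2.natAbs) (fun _ _ => Nat.zero_le _) hL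
    have h2 := (prim_forms h L hL).1
    have h3 : (v : ℤ) ≤ (L.1 : ℤ) * v := by
      have : (1 : ℤ) ≤ L.1 := by exact_mod_cast h2
      nlinarith [Int.natCast_nonneg v]
    omega
  rw [← S_forms h, ← Pool.Agent.U28.SF.SL_sft v _ hpos]
  refine lt_of_lt_of_le hc (hge _ (Pool.Agent.U28.SF.prim_sft v _ (prim_forms h) hpos) ?_ ?_)
  · rw [card_image_of_injOn (Pool.Agent.U28.SF.sft_inj v _ hpos), card_forms h]
  · intro p hp
    rw [Pool.Agent.U28.SF.w_sft v _ hpos hp.pos, w_forms a d hp]
    exact hadm p hp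

theorem of_dense (k m : ℕ) (A δ : ℝ) (hA : 0 ≤ A) (hδ : 0 < δ) : ∃ κ : ℝ, 0 < κ ∧ ∃ B x₀ : ℕ, ∀ x : ℕ, x₀ ≤ x →
    ∀ (a : Fin k → ℤ) (d : Fin k → ℕ), Proper a d → (∀ i, (d i : ℝ) ≤ (x : ℝ) ^ A) →
    (∀ p : ℕ, p.Prime → roots a d p < p) → ∀ U ⊆ Q a d x, δ * (series a d / Real.log x ^ (k + 1) * x) ≤ U.card →
      Everywhere κ (series a d / Real.log x ^ (k + 1)) x (FirstTerm m (Real.log x ^ B) U) := by
  classical
  obtain ⟨κ, hκ, B, h⟩ := Pool.Agent.U28.SF.intforms_all (k + 1) m (by omega) A δ hA hδ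
  obtain ⟨x₀, h0⟩ := eventually_atTop.1 h
  refine ⟨κ, hκ, B, max x₀ 1, fun x hx a d hpr hdA hadm U hU hUc => ?_⟩
  have hx0 : x₀ ≤ x := (le_max_left _ _).trans hx
  have hx1 : (1 : ℝ) ≤ x := by exact_mod_cast (le_max_right _ _).trans hx
  have key := h0 x hx0 (forms a d) (prim_forms hpr) (card_forms hpr) (by
    intro L hL
    unfold forms at hL
    rw [mem_insert, mem_image] at hL
    rcases hL with rfl | ⟨i, -, rfl⟩
    · show ((1 : ℕ) : ℝ) ≤ (x : ℝ) ^ A
      rw [Nat.cast_one]
      exact Real.one_le_rpow hx1 hA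
    · exact hdA i) (by rw [S_forms hpr]; exact series_pos hpr hadm) U (by
    intro n hn
    have h1 := mem_filter.1 (hU hn)
    rw [mem_Icc] at h1
    refine ⟨h1.1.1, h1.1.2, ?_⟩
    intro L hL
    unfold forms at hL
    rw [mem_insert, mem_image] at hL
    rcases hL with rfl | ⟨i, -, rfl⟩
    · exact ⟨n, h1.2.1, by simp⟩
    · obtain ⟨p, hp, he⟩ := h1.2.2 i
      refine ⟨p, hp, ?_⟩
      rw [← he]
      show (d i : ℤ) * n + a i = a i + (n : ℤ) * d i
      ring) (by
    rw [S_forms hpr]
    refine le_trans (le_of_eq ?_) hUc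
    ring)
  rw [S_forms hpr] at key
  exact key

/-- few vectors have two equal components -/
lemma few_equal (k D : ℕ) : (((Fintype.piFinset (fun _ : Fin k => Icc 1 D)).filter
    (fun d => ∃ i j, i ≠ j ∧ d i = d j)).card : ℝ) * D ≤ k ^ 2 * (D : ℝ) ^ k := by
  classical
  have h1 : ((Fintype.piFinset (fun _ : Fin k => Icc 1 D)).filter (fun d => ∃ i j, i ≠ j ∧ d i = d j)).card ≤
      ∑ ij : Fin k × Fin k, ((Fintype.piFinset (fun _ : Fin k => Icc 1 D)).filter
        (fun d => ij.1 ≠ ij.2 ∧ d ij.1 = d ij.2)).card := by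
    refine le_trans (card_le_card ?_) card_biUnion_le
    intro d hd
    rw [mem_filter] at hd
    obtain ⟨hd1, i, j, hij, he⟩ := hd
    rw [mem_biUnion]
    exact ⟨(i, j), mem_univ _, mem_filter.2 ⟨hd1, hij, he⟩⟩
  have h2 : ∀ ij : Fin k × Fin k, ((Fintype.piFinset (fun _ : Fin k => Icc 1 D)).filter
        (fun d => ij.1 ≠ ij.2 ∧ d ij.1 = d ij.2)).card * D ≤ D ^ k := by
    rintro ⟨i, j⟩
    by_cases hij : i = j
    · have : ((Fintype.piFinset (fun _ : Fin k => Icc 1 D)).filter (fun d => i ≠ j ∧ d i = d j)) = ∅ := by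
        rw [filter_eq_empty_iff]
        intro d _ h
        exact h.1 hij
      rw [this, card_empty, zero_mul]
      exact Nat.zero_le _
    · -- change the component `i` arbitrarily
      have hc : (Fintype.piFinset (fun _ : Fin k => Icc 1 D)).card = D ^ k := by
        rw [Fintype.card_piFinset_const, Nat.card_Icc, Nat.add_sub_cancel]
      rw [← hc]
      have hD : (Icc 1 D).card = D := by rw [Nat.card_Icc, Nat.add_sub_cancel]
      nth_rewrite 2 [← hD]
      rw [← card_product]
      apply card_le_card_of_injOn (fun z : (Fin k → ℕ) × ℕ => Function.update z.1 i z.2)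
      · rintro ⟨d, t⟩ hz
        rw [mem_coe, mem_product, mem_filter, Fintype.mem_piFinset] at hz
        rw [mem_coe, Fintype.mem_piFinset]
        intro l
        by_cases hl : l = i
        · subst hl
          simpa using hz.2
        · simpa [Function.update_of_ne hl] using hz.1.1 l
      · rintro ⟨d, t⟩ hz ⟨d', t'⟩ hz' he
        rw [mem_coe, mem_product, mem_filter] at hz hz'
        simp only at he hz hz'
        have e1 : t = t' := by
          have := congrFun he i
          simpa using this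
        have e2 : d = d' := by
          funext l
          have e3 : ∀ l, l ≠ i → d l = d' l := by
            intro l hl
            have := congrFun he l
            simpa [Function.update_of_ne hl] using this
          by_cases hl : l = i
          · subst hl
            rw [hz.1.2.2, hz'.1.2.2]
            exact e3 j (fun h => hij h.symm)
          · exact e3 l hl
        rw [e1, e2]
  have h3 : (∑ ij : Fin k × Fin k, ((Fintype.piFinset (fun _ : Fin k => Icc 1 D)).filter
        (fun d => ij.1 ≠ ij.2 ∧ d ij.1 = d ij.2)).card) * D ≤ k ^ 2 * D ^ k := by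
    rw [sum_mul]
    calc _ ≤ ∑ _ij : Fin k × Fin k, D ^ k := sum_le_sum fun ij _ => h2 ij
      _ = k ^ 2 * D ^ k := by
          rw [sum_const, card_univ, Fintype.card_prod, Fintype.card_fin, smul_eq_mul]
          ring
  exact_mod_cast (Nat.mul_le_mul_right D h1).trans h3

open Classical in
/-- **The primes `q` for which all `a_i + q d_i` are prime, in all short intervals.**

1. For all `k`, `m`, `A` and `δ > 0` there are `κ > 0`, `B` and `x₀` such that for ALL `x ≥ x₀`, ALL integers `a_i` and ALL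
`1 ≤ d_i ≤ x ^ A` with `Proper a d` and without fixed prime divisor, every subset `U` of `Q a d x` with at least
`δ μ x` elements, `μ = series a d / (log x) ^ (k + 1)`, satisfies `Everywhere κ μ x (FirstTerm m ((log x) ^ B) U)`.
2. For `k ≥ 1` there is `K` such that for all nonzero integers `a_1, ..., a_k` and all `A` there is `c > 0` such that for
all `m` and `ρ > 0` there are `κ > 0` and `B` with: for all large `x` and all `D` with `x (log x) ^ K ≤ D ≤ x ^ A`, at least
`c D ^ k` of the `d ∈ [1, D] ^ k` satisfy `Proper a d` and `Good κ ρ m ((log x) ^ B) x a d`. -/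
theorem result :
    (∀ (k m : ℕ) (A δ : ℝ), 0 < δ → ∃ κ : ℝ, 0 < κ ∧ ∃ B x₀ : ℕ, ∀ x : ℕ, x₀ ≤ x →
      ∀ (a : Fin k → ℤ) (d : Fin k → ℕ), Proper a d → (∀ i, (d i : ℝ) ≤ (x : ℝ) ^ A) →
      (∀ p : ℕ, p.Prime → roots a d p < p) → ∀ U ⊆ Q a d x, δ * (series a d / Real.log x ^ (k + 1) * x) ≤ U.card →
        Everywhere κ (series a d / Real.log x ^ (k + 1)) x (FirstTerm m (Real.log x ^ B) U)) ∧
    ∀ k : ℕ, 1 ≤ k → ∃ K : ℕ, ∀ a : Fin k → ℤ, (∀ i, a i ≠ 0) → ∀ A : ℝ, ∃ c : ℝ, 0 < c ∧
      ∀ (m : ℕ) (ρ : ℝ), 0 < ρ → ∃ κ : ℝ, 0 < κ ∧ ∃ B x₀ : ℕ, ∀ x : ℕ, x₀ ≤ x →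
        ∀ D : ℕ, x * Real.log x ^ K ≤ D → (D : ℝ) ≤ (x : ℝ) ^ A →
          c * (D : ℝ) ^ k ≤ (((Fintype.piFinset (fun _ : Fin k => Icc 1 D)).filter (fun d =>
            Proper a d ∧ Good κ ρ m (Real.log x ^ B) x a d)).card : ℝ) := by
  refine ⟨?_, ?_⟩
  · intro k m A δ hδ
    obtain ⟨κ, hκ, B, x₀, h⟩ := of_dense k m (max A 0) δ (le_max_right _ _) hδ
    refine ⟨κ, hκ, B, max x₀ 1, fun x hx a d hpr hdA hadm U hU hUc => ?_⟩
    have hx1 : (1 : ℝ) ≤ x := by exact_mod_cast (le_max_right _ _).trans hx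
    exact h x ((le_max_left _ _).trans hx) a d hpr (fun i => (hdA i).trans
      (Real.rpow_le_rpow_of_exponent_le hx1 (le_max_left _ _))) hadm U hU hUc
  · intro k hk
    obtain ⟨K, hbase⟩ := Pool.Agent.Results.MP_8bf9c2_nt.FixedConstantsExact.result k hk
    refine ⟨K + 1, fun a ha A => ?_⟩
    obtain ⟨A', hA'⟩ : ∃ A' : ℝ, A' = max A 1 := ⟨_, rfl⟩
    have hA'1 : 1 ≤ A' := by rw [hA']; exact le_max_right _ _
    have hA'0 : 0 ≤ A' := zero_le_one.trans hA'1
    have hAA' : A ≤ A' := by rw [hA']; exact le_max_left _ _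
    obtain ⟨κ0, hκ0, D₀, h0⟩ := hbase a ha 1 (1 / 2) one_pos (by norm_num)
    refine ⟨κ0 / 2, by positivity, fun m ρ hρ => ?_⟩
    obtain ⟨η, hη⟩ : ∃ η : ℝ, η = 1 / (2 * (A' + 1) ^ k) := ⟨_, rfl⟩
    have hη0 : 0 < η := by rw [hη]; positivity
    obtain ⟨κ1, hκ1, B, x₁, h1⟩ := of_dense k m A' (ρ * η) hA'0 (by positivity)
    refine ⟨min κ1 η, lt_min hκ1 hη0, B, ?_⟩
    have tN : Tendsto (fun N : ℕ => (N : ℝ)) atTop atTop := tendsto_natCast_atTop_atTop
    have tL : Tendsto (fun N : ℕ => Real.log (N : ℝ)) atTop atTop := Real.tendsto_log_atTop.comp tN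
    have hlo := (isLittleO_log_rpow_rpow_atTop ((k + 1 : ℕ) : ℝ) (show (0 : ℝ) < 1 by norm_num)).bound
      (show (0 : ℝ) < 1 / A' ^ k by positivity)
    obtain ⟨x₀, hx₀⟩ := eventually_atTop.1 ((tN.eventually hlo).and
      ((eventually_ge_atTop x₁).and ((eventually_ge_atTop (D₀ + 3)).and
        ((tN.eventually_ge_atTop (2 * k ^ 2 / κ0)).and (tL.eventually_ge_atTop (max 1 (A' ^ K)))))))
    refine ⟨x₀, fun x hx D hD1 hD2 => ?_⟩
    obtain ⟨g1, g2, g3, g4, g5⟩ := hx₀ x hx
    have hxr : (3 : ℝ) ≤ x := by exact_mod_cast (by omega : 3 ≤ x)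
    have hx0 : (0 : ℝ) < x := by linarith
    have hlogx1 : 1 ≤ Real.log (x : ℝ) := (le_max_left _ _).trans g5
    have hlogxA : A' ^ K ≤ Real.log (x : ℝ) := (le_max_right _ _).trans g5
    have hlogx : 0 < Real.log (x : ℝ) := by linarith
    -- size of `D`
    have hxD : (x : ℝ) ≤ D := by
      have h5 : (1 : ℝ) ≤ Real.log x ^ (K + 1) := one_le_pow₀ hlogx1
      nlinarith
    have hDr0 : (0 : ℝ) < D := by linarith
    have hD2' : (D : ℝ) ≤ (x : ℝ) ^ A' := hD2.trans (Real.rpow_le_rpow_of_exponent_le (by linarith) hAA')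
    have hlD0 : 0 ≤ Real.log (D : ℝ) := Real.log_natCast_nonneg D
    have hlD : Real.log (D : ℝ) ≤ A' * Real.log x := by
      have := Real.log_le_log hDr0 hD2'
      rwa [Real.log_rpow hx0] at this
    have hDD₀ : D₀ ≤ D := by
      have h5 : (D₀ : ℝ) ≤ x := by exact_mod_cast (by omega : D₀ ≤ x)
      exact_mod_cast h5.trans hxD
    have hb := h0 D x hDD₀ (by
      rw [one_mul]
      rw [Real.rpow_one, Real.rpow_natCast, Real.norm_of_nonneg (by positivity), Real.norm_of_nonneg hx0.le] at g1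
      rw [le_div_iff₀ hlogx]
      calc Real.log (D : ℝ) ^ k * Real.log x ≤ (A' * Real.log x) ^ k * Real.log x := by gcongr
        _ = A' ^ k * Real.log x ^ (k + 1) := by ring
        _ ≤ A' ^ k * (1 / A' ^ k * x) := by gcongr
        _ = x := by field_simp) (by
      refine le_trans ?_ hD1
      calc (x : ℝ) * Real.log D ^ K ≤ x * (A' * Real.log x) ^ K := by gcongr
        _ = x * (A' ^ K * Real.log x ^ K) := by rw [mul_pow]
        _ ≤ x * (Real.log x * Real.log x ^ K) := by gcongr
        _ = x * Real.log x ^ (K + 1) := by rw [pow_succ]; ring)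
    -- the good vectors
    have hsub : {d : Fin k → ℕ | (∀ i, 1 ≤ d i ∧ d i ≤ D ∧ Int.gcd (a i) (d i) = 1) ∧
        FixedConstantsExact.Admissible a d ∧
        1 / 2 * FixedConstantsExact.series a d * (x / (Real.log x * Real.log (D * x) ^ k)) ≤
          FixedConstantsExact.count a d x} ⊆
        (((Fintype.piFinset (fun _ : Fin k => Icc 1 D)).filter (fun d =>
          Proper a d ∧ Good (min κ1 η) ρ m (Real.log x ^ B) x a d) ∪
        (Fintype.piFinset (fun _ : Fin k => Icc 1 D)).filter (fun d => ∃ i j, i ≠ j ∧ d i = d j) :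
          Finset (Fin k → ℕ)) : Set (Fin k → ℕ)) := by
      rintro d ⟨e1, e2, e3⟩
      have hmem : d ∈ Fintype.piFinset (fun _ : Fin k => Icc 1 D) := by
        rw [Fintype.mem_piFinset]
        intro i
        exact mem_Icc.2 ⟨(e1 i).1, (e1 i).2.1⟩
      rw [mem_coe, mem_union, mem_filter, mem_filter]
      by_cases heq : ∃ i j, i ≠ j ∧ d i = d j
      · exact Or.inr ⟨hmem, heq⟩
      left
      push Not at heq
      have hpr : Proper a d := by
        refine ⟨fun i => ⟨(e1 i).1, ?_, fun h => ha i h.1⟩, fun i j hij h => heq i j hij h.2⟩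
        rw [isCoprime_comm, Int.isCoprime_iff_gcd_eq_one]
        exact (e1 i).2.2
      have hadm : ∀ p : ℕ, p.Prime → roots a d p < p := by
        intro p hp
        obtain ⟨n, hn⟩ := e2 p hp
        unfold roots
        have hlt : ((range p).filter (fun n : ℕ => (p : ℤ) ∣ (n : ℤ) * ∏ i, (a i + (d i : ℤ) * n))).card <
            (range p).card := by
          apply card_lt_card
          rw [Finset.ssubset_iff_of_subset (filter_subset _ _)]
          refine ⟨n % p, mem_range.2 (Nat.mod_lt _ hp.pos), fun hcon => hn ?_⟩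
          rw [mem_filter] at hcon
          have h2 : ((n % p : ℕ) : ℤ) * ∏ i, (a i + (d i : ℤ) * ((n % p : ℕ) : ℤ)) ≡
              (n : ℤ) * ∏ i, (a i + (d i : ℤ) * n) [ZMOD p] := by
            have h3 : ((n % p : ℕ) : ℤ) ≡ (n : ℤ) [ZMOD p] := by
              push_cast
              exact Int.mod_modEq _ _
            apply h3.mul
            unfold Int.ModEq
            rw [Finset.prod_int_mod, Finset.prod_int_mod univ (p : ℤ) (fun i => a i + (d i : ℤ) * (n : ℤ))]
            congr 1
            apply Finset.prod_congr rfl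
            intro i _
            exact (h3.mul_left (d i : ℤ)).add_left (a i)
          exact h2.dvd_iff.1 hcon.2
        rwa [card_range] at hlt
      have hs0 : 0 < series a d := series_pos hpr hadm
      have hcount : (FixedConstantsExact.count a d x : ℝ) = (Q a d x).card := by
        congr 1
        unfold FixedConstantsExact.count Q
        rw [← Set.ncard_coe_finset]
        congr 1
        ext q
        rw [coe_filter]
        constructor
        · rintro ⟨b1, b2, b3⟩
          exact ⟨mem_Icc.2 ⟨b2.one_lt.le, b1⟩, b2, b3⟩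
        · rintro ⟨b1, b2, b3⟩
          exact ⟨(mem_Icc.1 b1).2, b2, b3⟩
      have hcnt : η * (series a d / Real.log x ^ (k + 1) * x) ≤ (Q a d x).card := by
        rw [← hcount]
        refine le_trans ?_ e3
        have hlDx : Real.log ((D : ℝ) * x) ≤ (A' + 1) * Real.log x := by
          rw [Real.log_mul hDr0.ne' hx0.ne']
          linarith
        have hlDx0 : 0 < Real.log ((D : ℝ) * x) := by
          apply Real.log_pos
          nlinarith
        have e5 : FixedConstantsExact.series a d = series a d := rfl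
        rw [e5, hη]
        calc 1 / (2 * (A' + 1) ^ k) * (series a d / Real.log x ^ (k + 1) * x)
            = 1 / 2 * series a d * (x / (Real.log x * ((A' + 1) * Real.log x) ^ k)) := by
              rw [mul_pow]
              field_simp
              ring
          _ ≤ 1 / 2 * series a d * (x / (Real.log x * Real.log ((D : ℝ) * x) ^ k)) := by
              gcongr
      refine ⟨hmem, hpr, hs0, ?_, fun U hU hUc => ?_⟩
      · refine le_trans ?_ hcnt
        apply mul_le_mul_of_nonneg_right (min_le_right _ _)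
        positivity
      · have key := h1 x g2 a d hpr (fun i => (by exact_mod_cast (e1 i).2.1 : (d i : ℝ) ≤ D).trans hD2') hadm U hU (by
          refine le_trans ?_ hUc
          rw [mul_assoc]
          exact mul_le_mul_of_nonneg_left hcnt hρ.le)
        unfold Everywhere at key ⊢
        refine (mul_le_mul_of_nonneg_right (min_le_left _ _) hx0.le).trans (key.trans ?_)
        rw [Nat.cast_le]
        apply card_le_card
        intro n hn
        rw [mem_filter] at hn ⊢
        refine ⟨hn.1, fun H hH1 hH2 => ?_⟩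
        exact (mul_le_mul_of_nonneg_right (min_le_left _ _) (by linarith)).trans (hn.2 H hH1 hH2)
    have hn := Set.ncard_le_ncard hsub (Finset.finite_toSet _)
    rw [Set.ncard_coe_finset] at hn
    have hn2 := hn.trans (card_union_le _ _)
    have hn3 : κ0 * (D : ℝ) ^ k ≤ (((Fintype.piFinset (fun _ : Fin k => Icc 1 D)).filter (fun d =>
          Proper a d ∧ Good (min κ1 η) ρ m (Real.log x ^ B) x a d)).card : ℝ) +
        (((Fintype.piFinset (fun _ : Fin k => Icc 1 D)).filter (fun d => ∃ i j, i ≠ j ∧ d i = d j)).card : ℝ) :=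
      hb.trans (by exact_mod_cast hn2)
    have hfew := few_equal k D
    have hfew2 : (((Fintype.piFinset (fun _ : Fin k => Icc 1 D)).filter (fun d => ∃ i j, i ≠ j ∧ d i = d j)).card : ℝ) ≤
        κ0 / 2 * (D : ℝ) ^ k := by
      have h5 : 2 * (k : ℝ) ^ 2 / κ0 ≤ D := g4.trans hxD
      rw [div_le_iff₀ hκ0] at h5
      have h6 : (k : ℝ) ^ 2 * (D : ℝ) ^ k ≤ κ0 / 2 * (D : ℝ) ^ k * D := by
        have h7 : 0 ≤ (D : ℝ) ^ k := by positivity
        nlinarith
      exact le_of_mul_le_mul_right (hfew.trans h6) hDr0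
    linarith

end Pool.Agent.Results.MP_8bf9c2_nt.SlopesInAllShortIntervals
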